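import Mathlib
import Pool.Agent.Results.MP_309968_ag.BoundaryRays
import Pool.Agent.TH906.WP.Step

set_option autoImplicit false

/-!
# Patterns of multiplicities with nonnegative self-intersection

A calculus of real triangles produces lists `L` of real numbers (patterns) of degree `c` with
`∑ L_j m_j ≤ c e` for all plane curves of degree `e` with multiplicities at least `m_j` at very
general points; the curves whose multiplicities are proportional to `L` have nonnegative
self-intersection if `∑ L_j ^ 2 = c ^ 2`.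
-/

namespace Pool.Agent.Results.MP_b180eb_ag.MultiplicityPatterns

open Pool.Agent.H932R3 Pool.Agent.H350R3 Pool.Agent.H350R3.GR
open Pool.Agent.Results.MP_309968_ag.BoundaryRays (MultGE noForm_ext)

/-- `(μ + ν)` times the lattice width in the direction `(a, b)`, `b ≥ 0`, of the triangle with
sides `y = 0`, `x = μ y`, `x = 1 - ν y`. -/
noncomputable def width (μ ν : ℝ) (a b : ℤ) : ℝ := max 0 (μ * b - a) + max 0 (a + ν * b)

/-- `Weights μ ν n M`: there are `n` distinct points `(x_j, y_j)` of `(ℂ*)²`, finitely many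
curves `x ^ a_i y ^ b_i = c_i` (`a_i`, `b_i` coprime, `b_i ≥ 0`, `c_i ≠ 0`) and numbers
`β_i ≥ 0` such that `M_j` is the sum of the `β_i` over the curves through the `j`-th point,
`∑ β_i width_i ≤ μ + ν`, and for every curve the sum of the `M_j` over the points on it is at most
its width. -/
def Weights (μ ν : ℝ) (n : ℕ) (M : Fin n → ℝ) : Prop :=
  ∃ (s : ℕ) (x y : Fin n → ℂ) (a b : Fin s → ℤ) (c : Fin s → ℂ) (β : Fin s → ℝ),
    (∀ j, x j ≠ 0 ∧ y j ≠ 0) ∧ (∀ j l, x j = x l → y j = y l → j = l) ∧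
    (∀ i, IsCoprime (a i) (b i) ∧ 0 ≤ b i ∧ c i ≠ 0 ∧ 0 ≤ β i) ∧
    (∀ j, M j = ∑ i, by classical exact if x j ^ a i * y j ^ b i = c i then β i else 0) ∧
    ∑ i, β i * width μ ν (a i) (b i) ≤ μ + ν ∧
    ∀ i, (∑ j, by classical exact if x j ^ a i * y j ^ b i = c i then M j else 0) ≤
      width μ ν (a i) (b i)

/-- `Tri μ ν L`: the list `L` of real weights is admissible for the triangles with sides `y = 0`,
`x = μ y`, `x = s - ν y`. The smallest relation closed under the rules below. -/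
inductive Tri : ℝ → ℝ → List ℝ → Prop
  | nil (μ : ℝ) : Tri μ (-μ) []
  | width (μ ν : ℝ) (n : ℕ) (M : Fin n → ℝ) : 0 < μ + ν → Weights μ ν n M →
      Tri μ ν (List.ofFn M)
  | shear (μ ν : ℝ) (L : List ℝ) (z : ℤ) : Tri μ ν L → Tri (μ + z) (ν - z) L
  | mirror (μ ν : ℝ) (L : List ℝ) : Tri μ ν L → Tri ν μ L
  | join (μ ν k : ℝ) (L L' : List ℝ) : 0 < μ + ν → Tri μ k L → Tri (-k) ν L' →
      Tri μ ν (L ++ L')
  | corner (μ ν t : ℝ) (L' L : List ℝ) (u v : ℤ) (h c l : ℝ) : IsCoprime u v → 0 ≤ u → 0 ≤ t →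
      0 < μ + ν → h = u * μ + v → 0 ≤ h → c = max (u : ℝ) (h / (μ + ν)) →
      l = min (u : ℝ) (h / t) → Tri μ (t - μ) L' →
      Tri (u * h - t * l ^ 2) (c ^ 2 * (μ + ν) - u * h) L →
      Tri μ ν ((L'.map fun x => l / c * x) ++ L.map fun x => x / c)
  | cubic (μ : ℝ) (L : List ℝ) : Tri μ (9 - μ) L → Tri 0 1 (L.map fun t => t / 3)

/-- `Pattern L c`: the list `L` and the degree `c` come from a list of positive weights admissible
for the triangle of the plane by scaling, or by replacing entries `w` by the entries of patterns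
`L'` of degree `w`. -/
inductive Pattern : List ℝ → ℝ → Prop
  | tri (c : ℝ) (L : List ℝ) : 0 < c → (∀ t ∈ L, 0 < t) → Tri 0 1 L →
      Pattern (L.map fun t => c * t) c
  | subst (c w : ℝ) (L₁ L₂ L' : List ℝ) : Pattern (L₁ ++ [w] ++ L₂) c → Pattern L' w →
      Pattern (L₁ ++ L' ++ L₂) c

/-- `Groups N L`: the list `L` belongs to points divided into groups, a point in a group of `m`
points has weight `N / m`, and the sum of the `N / m` over all groups is `1`. -/
def Groups (N : ℝ) (L : List ℝ) : Prop :=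
  ∃ (n s : ℕ) (g : Fin n → Fin s), Function.Surjective g ∧
    L = List.ofFn (fun j => N / (Fintype.card {l // g l = g j} : ℝ)) ∧
    ∑ i, N / (Fintype.card {l // g l = i} : ℝ) = 1

open Pool.Agent.TH906.WP (Gd)

/-- the meaning for lists -/
def GdL (μ ν : ℝ) (L : List ℝ) : Prop := Gd μ ν L.get

theorem gd_reindex {μ ν : ℝ} {m n : ℕ} {M : Fin m → ℝ} {M' : Fin n → ℝ} (e : Fin m ≃ Fin n)
    (h : ∀ j, M' (e j) = M j) (hM : Gd μ ν M) : Gd μ ν M' := by
  intro w A s hs
  have h1 := hM (fun j => w (e j)) A s (by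
    rw [← e.sum_comp] at hs
    simpa [h] using hs)
  have h2 := Pool.Agent.TH906.WP.Emp_reindex e.symm e.symm.surjective h1
  simpa using h2

theorem GdL_ofFn {μ ν : ℝ} {n : ℕ} {M : Fin n → ℝ} (h : Gd μ ν M) : GdL μ ν (List.ofFn M) := by
  refine gd_reindex (finCongr (List.length_ofFn (f := M)).symm) (fun j => ?_) h
  simp

theorem GdL.append {μ ν k : ℝ} {L L' : List ℝ} (hN : 0 < μ + ν) (h : GdL μ k L)
    (h' : GdL (-k) ν L') : GdL μ ν (L ++ L') := by
  have h1 := GdL_ofFn (Pool.Agent.TH906.WP.Gd.join hN h h')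
  rwa [List.ofFn_fin_append, List.ofFn_get, List.ofFn_get] at h1

theorem Weights.gd {μ ν : ℝ} {n : ℕ} {M : Fin n → ℝ} (hN : 0 < μ + ν) (h : Weights μ ν n M) :
    Gd μ ν M := by
  classical
  obtain ⟨s, x, y, a, b, c, β, h1, h2, h3, h4, h5, h6⟩ := h
  have hM : M = Pool.Agent.TH906.WP.Mk x y a b c β := by
    funext j
    rw [h4 j]
    rfl
  intro w A t ht
  refine Pool.Agent.TH906.WP.Emp_width x y (fun j => (h1 j).1) (fun j => (h1 j).2) h2 a b
    (fun i => (h3 i).1) (fun i => (h3 i).2.1) c (fun i => (h3 i).2.2.1) β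
    (fun i => (h3 i).2.2.2) hN h5 ?_ w A t (by rw [← hM]; exact ht)
  intro i
  refine le_trans (le_of_eq ?_) (h6 i)
  refine Finset.sum_congr rfl fun j _ => ?_
  rw [hM]

theorem gd_nil (μ : ℝ) : GdL μ (-μ) [] := by
  intro w A s hs
  have hs' : s < 0 := by simpa using hs
  refine ⟨ℚ, inferInstance, inferInstance, fun _ => 1, fun _ => 1, fun _ => one_ne_zero,
    fun _ => one_ne_zero, fun f hf _ => ?_⟩
  rw [← Finsupp.support_eq_empty, Finset.eq_empty_iff_forall_notMem]
  intro m hm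
  obtain ⟨-, h1, h2⟩ := hf (Finset.mem_coe.2 hm)
  linarith

theorem Tri.gd {μ ν : ℝ} {L : List ℝ} (h : Tri μ ν L) : GdL μ ν L := by
  induction h with
  | nil μ => exact gd_nil μ
  | width μ ν n M hN hM => exact GdL_ofFn (hM.gd hN)
  | shear μ ν L z _ ih =>
    refine Pool.Agent.TH906.WP.Gd.shear (-z) ?_
    have e1 : μ + (z : ℝ) + ((-z : ℤ) : ℝ) = μ := by push_cast; ring
    have e2 : ν - (z : ℝ) - ((-z : ℤ) : ℝ) = ν := by push_cast; ring
    rw [e1, e2]
    exact ih
  | mirror μ ν L _ ih => exact Pool.Agent.TH906.WP.Gd.mirror ih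
  | join μ ν k L L' hN _ _ ih ih' => exact GdL.append hN ih ih'
  | corner μ ν t L' L u v h c l hco hu ht hN hh hh0 hc hl _ _ ih' ih =>
    subst hh
    have h1 := GdL_ofFn (Pool.Agent.TH906.WP.Gd.corner hco hu ht hN hh0 hc hl ih' ih)
    rw [List.ofFn_fin_append] at h1
    have e : List.ofFn (fun j => L.get j / c) = L.map fun t => t / c := by
      conv_rhs => rw [← List.ofFn_get L, List.map_ofFn]
      rfl
    have e' : List.ofFn (fun j => l / c * L'.get j) = L'.map fun t => l / c * t := by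
      conv_rhs => rw [← List.ofFn_get L', List.map_ofFn]
      rfl
    rwa [e, e'] at h1
  | cubic μ L _ ih =>
    have h1 := GdL_ofFn (Pool.Agent.TH906.WP.Gd.cubic ih)
    have e : List.ofFn (fun j => L.get j / 3) = L.map fun t => t / 3 := by
      conv_rhs => rw [← List.ofFn_get L, List.map_ofFn]
      rfl
    rwa [e] at h1

theorem Pattern.props {L : List ℝ} {c : ℝ} (h : Pattern L c) :
    0 < c ∧ (∀ t ∈ L, 0 < t) ∧ NB.Nf ℂ L.get c := by
  induction h with
  | tri c L hc hL h =>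
    refine ⟨hc, ?_, ?_⟩
    · intro t ht
      obtain ⟨u, hu, rfl⟩ := List.mem_map.1 ht
      exact mul_pos hc (hL u hu)
    · have h1 : NB.Nf ℂ L.get 1 := Pool.Agent.TH906.WP.Gd.nf h.gd
      have h2 := nf_list_scale hc h1
      rwa [mul_one] at h2
  | subst c w L₁ L₂ L' _ _ ih ih' =>
    obtain ⟨h1, h2, h4⟩ := ih
    obtain ⟨h1', h2', h4'⟩ := ih'
    have hL₁ : ∀ t ∈ L₁, 0 < t := fun t ht => h2 t (by simp [ht])
    have hL₂ : ∀ t ∈ L₂, 0 < t := fun t ht => h2 t (by simp [ht])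
    refine ⟨h1, ?_, nf_list_glue hL₁ hL₂ h1' h4 h4'⟩
    intro t ht
    simp only [List.mem_append] at ht
    rcases ht with (ht | ht) | ht
    · exact hL₁ t ht
    · exact h2' t ht
    · exact hL₂ t ht

/-- points on parallel curves -/
theorem weights_groups {μ ν : ℝ} (hμ : 0 ≤ μ) (hν : 0 ≤ ν) (hN : 0 < μ + ν) {n s : ℕ}
    (g : Fin n → Fin s)
    (hg : ∑ i, (μ + ν) / (Fintype.card {j // g j = i} : ℝ) ≤ 1) :
    Weights μ ν n fun j => (μ + ν) / (Fintype.card {l // g l = g j} : ℝ) := by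
  classical
  refine ⟨s, fun j => (j : ℕ) + 1, fun j => ((g j : ℕ) : ℂ) + 1, fun _ => 0, fun _ => 1,
    fun i => ((i : ℕ) : ℂ) + 1, fun i => (μ + ν) / (Fintype.card {l // g l = i} : ℝ),
    fun j => ⟨?_, ?_⟩, ?_, fun i => ⟨?_, ?_, ?_, ?_⟩, ?_, ?_, ?_⟩
  · exact Nat.cast_add_one_ne_zero _
  · exact Nat.cast_add_one_ne_zero _
  · intro j l h1 _
    have h2 : (j : ℕ) = l := by exact_mod_cast add_right_cancel h1
    exact Fin.ext h2
  · exact isCoprime_one_right
  · norm_num
  · exact Nat.cast_add_one_ne_zero _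
  · positivity
  · intro j
    have h1 : ∀ i : Fin s, ((((j : ℕ) : ℂ) + 1) ^ (0 : ℤ) * (((g j : ℕ) : ℂ) + 1) ^ (1 : ℤ) =
        ((i : ℕ) : ℂ) + 1) ↔ g j = i := by
      intro i
      rw [zpow_zero, one_mul, zpow_one]
      constructor
      · intro h
        have h2 : ((g j : ℕ)) = i := by exact_mod_cast add_right_cancel h
        exact Fin.ext h2
      · rintro rfl; rfl
    simp only [h1]
    rw [Finset.sum_ite_eq]
    simp
  · have h1 : width μ ν 0 1 = μ + ν := by
      unfold width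
      rw [max_eq_right, max_eq_right]
      · push_cast; ring
      · push_cast; linarith
      · push_cast; linarith
    simp only [h1]
    rw [← Finset.sum_mul]
    nlinarith
  · intro i
    have h1 : width μ ν 0 1 = μ + ν := by
      unfold width
      rw [max_eq_right, max_eq_right]
      · push_cast; ring
      · push_cast; linarith
      · push_cast; linarith
    rw [h1]
    have h2 : ∀ j : Fin n, ((((j : ℕ) : ℂ) + 1) ^ (0 : ℤ) * (((g j : ℕ) : ℂ) + 1) ^ (1 : ℤ) =
        ((i : ℕ) : ℂ) + 1) ↔ g j = i := by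
      intro j
      rw [zpow_zero, one_mul, zpow_one]
      constructor
      · intro h
        have h2 : ((g j : ℕ)) = i := by exact_mod_cast add_right_cancel h
        exact Fin.ext h2
      · rintro rfl; rfl
    simp only [h2]
    rw [← Finset.sum_filter]
    have h3 : ∑ j with g j = i, (μ + ν) / (Fintype.card {l // g l = g j} : ℝ) =
        ∑ j with g j = i, (μ + ν) / (Fintype.card {l // g l = i} : ℝ) := by
      refine Finset.sum_congr rfl fun j hj => ?_
      rw [(Finset.mem_filter.1 hj).2]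
    rw [h3, Finset.sum_const, nsmul_eq_mul, Fintype.card_subtype]
    rcases Nat.eq_zero_or_pos (Finset.univ.filter fun j => g j = i).card with h4 | h4
    · rw [h4]; simp [hN.le]
    · have h5 : (0 : ℝ) < ((Finset.univ.filter fun j => g j = i).card : ℝ) := by exact_mod_cast h4
      rw [mul_div_cancel₀ _ h5.ne']

/-- groups of points in a triangle of area at least `1` -/
theorem Groups.tri {μ ν N : ℝ} {L : List ℝ} (hN : μ + ν = N) (h1 : 1 ≤ N) (hL : Groups N L) :
    Tri μ ν L := by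
  obtain ⟨n, s, g, -, hLg, hg⟩ := hL
  obtain ⟨z, hz⟩ : ∃ z : ℤ, z = ⌊μ⌋ := ⟨_, rfl⟩
  have hz1 : 0 ≤ μ - z := by rw [hz]; linarith [Int.floor_le μ]
  have hz2 : 0 ≤ ν + z := by rw [hz]; linarith [Int.lt_floor_add_one μ]
  have e : (μ - z) + (ν + z) = N := by rw [← hN]; ring
  have h2 := weights_groups hz1 hz2 (by linarith) g (by rw [e]; exact hg.le)
  have h3 := Tri.shear _ _ _ z (Tri.width _ _ _ _ (by linarith) h2)
  have e1 : μ - (z : ℝ) + z = μ := by ring
  have e2 : ν + (z : ℝ) - z = ν := by ring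
  rw [e1, e2, e] at h3
  rw [hLg]
  exact h3

theorem Groups.pos {N : ℝ} {L : List ℝ} (h1 : 0 < N) (hL : Groups N L) : ∀ t ∈ L, 0 < t := by
  obtain ⟨n, s, g, hs, hLg, hg⟩ := hL
  intro t ht
  rw [hLg, List.mem_ofFn] at ht
  obtain ⟨j, rfl⟩ := ht
  have : 0 < Fintype.card {l // g l = g j} := Fintype.card_pos_iff.2 ⟨⟨j, rfl⟩⟩
  positivity

theorem Groups.sq {N : ℝ} {L : List ℝ} (hL : Groups N L) :
    (L.map fun x => x ^ 2).sum = N := by
  classical
  obtain ⟨n, s, g, hs, hLg, hg⟩ := hL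
  rw [hLg, List.map_ofFn, List.sum_ofFn]
  have h1 : ∑ j : Fin n, ((fun x : ℝ => x ^ 2) ∘
      fun j => N / (Fintype.card {l // g l = g j} : ℝ)) j =
      ∑ i : Fin s, ∑ j with g j = i, (N / (Fintype.card {l // g l = i} : ℝ)) ^ 2 := by
    rw [← Finset.sum_fiberwise Finset.univ g]
    refine Finset.sum_congr rfl fun i _ => Finset.sum_congr rfl fun j hj => ?_
    simp only [Function.comp_apply]
    rw [(Finset.mem_filter.1 hj).2]
  have h2 : ∀ i : Fin s, ∑ j with g j = i, (N / (Fintype.card {l // g l = i} : ℝ)) ^ 2 =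
      N * (N / (Fintype.card {l // g l = i} : ℝ)) := by
    intro i
    rw [Finset.sum_const, nsmul_eq_mul, ← Fintype.card_subtype]
    obtain ⟨j, hj⟩ := hs i
    have h3 : 0 < Fintype.card {l // g l = i} := Fintype.card_pos_iff.2 ⟨⟨j, hj⟩⟩
    have h4 : (0 : ℝ) < (Fintype.card {l // g l = i} : ℝ) := by exact_mod_cast h3
    field_simp
  rw [h1, Finset.sum_congr rfl fun i _ => h2 i, ← Finset.mul_sum, hg, mul_one]

theorem groups_one : Groups 1 [1] := by
  refine ⟨1, 1, id, Function.surjective_id, ?_, ?_⟩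
  · simp
  · simp

theorem ones_tri (k : ℕ) : ∀ μ : ℝ, Tri μ (k - μ) (List.replicate k 1) := by
  induction k with
  | zero =>
    intro μ
    have h := Tri.nil μ
    simpa using h
  | succ k ih =>
    intro μ
    have h1 : Tri μ (1 - μ) [1] := groups_one.tri (by ring) le_rfl
    have h2 := ih (-(1 - μ))
    have e : (k : ℝ) - -(1 - μ) = ((k + 1 : ℕ) : ℝ) - μ := by push_cast; ring
    rw [e] at h2
    have h3 := Tri.join μ (((k + 1 : ℕ) : ℝ) - μ) (1 - μ) [1] _ (by push_cast; linarith [Nat.cast_nonneg (α := ℝ) k]) h1 h2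
    simpa [List.replicate_succ] using h3

/-- several pieces -/
theorem pieces_tri : ∀ (P : List (ℝ × List ℝ)), (∀ p ∈ P, 1 ≤ p.1 ∧ Groups p.1 p.2) →
    ∀ μ ν : ℝ, μ + ν = (P.map Prod.fst).sum → 0 ≤ μ + ν ∧ Tri μ ν (P.map Prod.snd).flatten
  | [], _, μ, ν, hs => by
    have hs' : μ + ν = 0 := by simpa using hs
    have e : ν = -μ := by linarith
    subst e
    exact ⟨by linarith, by simpa using Tri.nil μ⟩
  | p :: P, hP, μ, ν, hs => by
    obtain ⟨h1, h2⟩ := hP p (by simp)
    have hs' : μ + ν = p.1 + (P.map Prod.fst).sum := by simpa using hs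
    obtain ⟨h3, h4⟩ := pieces_tri P (fun p' hp' => hP p' (by simp [hp']))
      (-(p.1 - μ)) ν (by linarith)
    have h5 := Tri.join μ ν (p.1 - μ) p.2 _ (by linarith) (h2.tri (by ring) h1) h4
    exact ⟨by linarith, by simpa using h5⟩

/-- the explicit patterns -/
theorem explicit_pattern {k u : ℕ} (hk : k ≤ 9) (hu : 1 ≤ u) {d l : ℝ} (hd : 3 * u ≤ d)
    (hl0 : 0 < l) (hlu : l ≤ u) (hor : d = 3 * u ∨ l = u) (P : List (ℝ × List ℝ))
    (hP : ∀ p ∈ P, 1 ≤ p.1 ∧ Groups p.1 p.2) (hs : (P.map Prod.fst).sum = d ^ 2 - k * l ^ 2) :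
    Pattern (List.replicate k l ++ (P.map Prod.snd).flatten) d := by
  have hu' : (1 : ℝ) ≤ u := by exact_mod_cast hu
  have hk' : (k : ℝ) ≤ 9 := by exact_mod_cast hk
  have hk0 : (0 : ℝ) ≤ k := Nat.cast_nonneg k
  have hd0 : 0 < d := by linarith
  -- the value `h = u μ + v`
  obtain ⟨h, hh0, hd', hl'⟩ : ∃ h : ℝ, 0 ≤ h ∧ d / 3 = max (u : ℝ) (h / 9) ∧
      (k = 0 ∨ l = min (u : ℝ) (h / k)) := by
    rcases hor with h1 | h1
    · refine ⟨k * l, by positivity, ?_, ?_⟩
      · have h2 : (k : ℝ) * l / 9 ≤ u := by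
          rw [div_le_iff₀ (by norm_num)]
          nlinarith
        rw [max_eq_left h2, h1]; ring
      · rcases Nat.eq_zero_or_pos k with h2 | h2
        · exact .inl h2
        · right
          have h3 : (0 : ℝ) < k := by exact_mod_cast h2
          have h4 : (k : ℝ) * l / k = l := by field_simp
          rw [h4, min_eq_right hlu]
    · refine ⟨3 * d, by linarith, ?_, ?_⟩
      · have h2 : (u : ℝ) ≤ 3 * d / 9 := by
          rw [le_div_iff₀ (by norm_num)]
          linarith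
        rw [max_eq_right h2]; ring
      · rcases Nat.eq_zero_or_pos k with h2 | h2
        · exact .inl h2
        · right
          have h3 : (0 : ℝ) < k := by exact_mod_cast h2
          have h4 : (u : ℝ) ≤ 3 * d / k := by
            rw [le_div_iff₀ h3]
            nlinarith
          rw [min_eq_left h4, h1]
  have hu0 : (0 : ℝ) < u := by linarith
  obtain ⟨μ, hμ⟩ : ∃ μ : ℝ, μ = (h - 1) / u := ⟨_, rfl⟩
  have hμh : h = ((u : ℤ) : ℝ) * μ + ((1 : ℤ) : ℝ) := by
    rw [hμ]; push_cast; field_simp; ring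
  have hco : IsCoprime (u : ℤ) 1 := isCoprime_one_right
  obtain ⟨l', hl'1⟩ : ∃ l' : ℝ, l' = min (((u : ℤ)) : ℝ) (h / k) := ⟨_, rfl⟩
  have hll : k = 0 ∨ l = l' := by
    rcases hl' with h1 | h1
    · exact .inl h1
    · right; rw [hl'1, h1]; push_cast; rfl
  have hkl : (k : ℝ) * l' ^ 2 = k * l ^ 2 := by
    rcases hll with h1 | h1
    · rw [h1]; simp
    · rw [h1]
  have hrep : List.replicate k l' = List.replicate k l := by
    rcases hll with h1 | h1
    · rw [h1]; rfl
    · rw [h1]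
  have e4 : (((u : ℤ) : ℝ) * h - k * l' ^ 2) + ((d / 3) ^ 2 * (μ + (9 - μ)) - ((u : ℤ) : ℝ) * h) =
      (P.map Prod.fst).sum := by
    rw [hkl, hs]; ring
  obtain ⟨-, h6⟩ := pieces_tri P hP _ _ e4
  have h7 := Tri.corner μ (9 - μ) k _ _ u 1 h (d / 3) l' hco (by positivity) hk0
    (by linarith) hμh hh0 (by
      have : μ + (9 - μ) = 9 := by ring
      rw [this]; exact_mod_cast hd') hl'1 (ones_tri k μ) h6
  have h8 := Tri.cubic μ _ h7
  have h9 := Pattern.tri d _ hd0 ?_ h8
  · convert h9 using 1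
    rw [List.map_append, List.map_append, List.map_replicate, List.map_replicate,
      List.map_replicate, List.map_map, List.map_map]
    have e5 : d * (l' / (d / 3) * 1 / 3) = l' := by field_simp
    have e6 : (((fun t : ℝ => d * t) ∘ fun t : ℝ => t / 3) ∘ fun t : ℝ => t / (d / 3)) = id := by
      funext t
      simp only [Function.comp_apply, id]
      field_simp
    rw [e5, hrep, e6, List.map_id]
  · intro t ht
    rw [List.map_append, List.mem_append, List.map_replicate, List.map_replicate,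
      List.map_map] at ht
    rcases ht with ht | ht
    · obtain ⟨hk1, rfl⟩ := List.mem_replicate.1 ht
      rcases hll with h1 | h1
      · exact absurd h1 hk1
      · rw [← h1]; positivity
    · obtain ⟨t', ht', rfl⟩ := List.mem_map.1 ht
      obtain ⟨L, hL, htL⟩ := List.mem_flatten.1 ht'
      obtain ⟨p, hp, rfl⟩ := List.mem_map.1 hL
      have h10 := (hP p hp).2.pos (by linarith [(hP p hp).1]) t' htL
      simp only [Function.comp_apply]
      positivity

theorem sq_flatten : ∀ (P : List (ℝ × List ℝ)), (∀ p ∈ P, 1 ≤ p.1 ∧ Groups p.1 p.2) →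
    ((P.map Prod.snd).flatten.map fun x => x ^ 2).sum = (P.map Prod.fst).sum
  | [], _ => by simp
  | p :: P, hP => by
    have h1 := sq_flatten P (fun p' hp' => hP p' (by simp [hp']))
    have h2 := (hP p (by simp)).2.sq
    rw [List.map_cons, List.map_cons, List.flatten_cons, List.map_append, List.sum_append, h1, h2,
      List.sum_cons]

/-- the self-intersection -/
theorem self_int {n : ℕ} {L : List ℝ} {c : ℝ} (hc : 0 < c) (hL : (L.map fun x => x ^ 2).sum = c ^ 2)
    {g : Fin L.length → Fin n} {m : Fin n → ℕ} {e : ℕ} {t : ℝ} (ht : 0 < t)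
    (hm : ∀ j, (m (g j) : ℝ) = t * L.get j) (h : ∑ j, L.get j * (m (g j) : ℝ) ≤ c * e) :
    ∑ j, (m (g j)) ^ 2 ≤ e ^ 2 ∧ ((∀ z : ℕ, (z : ℝ) ≠ t * c) → ∑ j, (m (g j)) ^ 2 < e ^ 2) := by
  have h1 : ∑ j, L.get j * (m (g j) : ℝ) = t * c ^ 2 := by
    rw [← hL]
    have h2 : (L.map fun x => x ^ 2).sum = ∑ j : Fin L.length, (L.get j) ^ 2 := by
      conv_lhs => rw [← List.ofFn_get L]
      rw [List.map_ofFn, List.sum_ofFn]
      rfl
    rw [h2, Finset.mul_sum]
    refine Finset.sum_congr rfl fun j _ => ?_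
    rw [hm j]; ring
  have h3 : ((∑ j, (m (g j)) ^ 2 : ℕ) : ℝ) = (t * c) ^ 2 := by
    have h2 : (L.map fun x => x ^ 2).sum = ∑ j : Fin L.length, (L.get j) ^ 2 := by
      conv_lhs => rw [← List.ofFn_get L]
      rw [List.map_ofFn, List.sum_ofFn]
      rfl
    rw [mul_pow, ← hL, h2, Finset.mul_sum]
    push_cast
    refine Finset.sum_congr rfl fun j _ => ?_
    rw [hm j]; ring
  have h4 : t * c ≤ e := by
    rw [h1] at h
    have h5 : c * (t * c) ≤ c * e := by
      have : c * (t * c) = t * c ^ 2 := by ring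
      rw [this]; exact h
    exact le_of_mul_le_mul_left h5 hc
  have htc : 0 < t * c := mul_pos ht hc
  constructor
  · have h5 : ((∑ j, (m (g j)) ^ 2 : ℕ) : ℝ) ≤ ((e ^ 2 : ℕ) : ℝ) := by
      rw [h3]; push_cast
      exact pow_le_pow_left₀ htc.le h4 2
    exact_mod_cast h5
  · intro hz
    have h6 : t * c < e := lt_of_le_of_ne h4 fun h7 => hz e h7.symm
    have h5 : ((∑ j, (m (g j)) ^ 2 : ℕ) : ℝ) < ((e ^ 2 : ℕ) : ℝ) := by
      rw [h3]; push_cast
      exact pow_lt_pow_left₀ h6 htc.le (by norm_num)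
    exact_mod_cast h5

theorem result : ∀ n : ℕ, ∃ f : ℕ → MvPolynomial (Fin n × Fin 2) ℂ, (∀ k, f k ≠ 0) ∧
    ∀ p : Fin n → Fin 2 → ℂ,
      (∀ k, MvPolynomial.eval (fun q : Fin n × Fin 2 => p q.1 q.2) (f k) ≠ 0) →
      ∀ (F : MvPolynomial (Fin 3) ℂ) (e : ℕ) (m : Fin n → ℕ), F.IsHomogeneous e → F ≠ 0 →
        (∀ i, MultGE (p i) F (m i)) →
        (∀ (L : List ℝ) (c : ℝ), Pattern L c →
          ∀ g : Fin L.length → Fin n, Function.Injective g →
            ∑ j, L.get j * (m (g j) : ℝ) ≤ c * e ∧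
            ∀ t : ℝ, 0 < t → (∀ j, (m (g j) : ℝ) = t * L.get j) →
              (L.map fun x => x ^ 2).sum = c ^ 2 →
              ∑ j, (m (g j)) ^ 2 ≤ e ^ 2 ∧
                ((∀ z : ℕ, (z : ℝ) ≠ t * c) → ∑ j, (m (g j)) ^ 2 < e ^ 2)) ∧
        (∀ (k u : ℕ) (P : List (ℝ × List ℝ)), k ≤ 9 → 1 ≤ u →
          (∀ q ∈ P, 1 ≤ q.1 ∧ Groups q.1 q.2) →
          9 * (u : ℝ) ^ 2 ≤ (P.map Prod.fst).sum + k * (u : ℝ) ^ 2 →
          ∀ g : Fin (List.replicate k (u : ℝ) ++ (P.map Prod.snd).flatten).length → Fin n,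
            Function.Injective g → ∀ t : ℝ, 0 < t →
            (∀ j, (m (g j) : ℝ) =
              t * (List.replicate k (u : ℝ) ++ (P.map Prod.snd).flatten).get j) →
            ∑ j, (m (g j)) ^ 2 ≤ e ^ 2 ∧
              ((∀ z : ℕ, (z : ℝ) ≠ t * √((P.map Prod.fst).sum + k * (u : ℝ) ^ 2)) →
                ∑ j, (m (g j)) ^ 2 < e ^ 2)) := by
  classical
  intro n
  obtain ⟨f, hf, hf'⟩ := exists_conds_all (K := ℂ) n
  refine ⟨f, hf, fun p hp F e m hF hF0 hm => ?_⟩
  have key : ∀ (L : List ℝ) (c : ℝ), Pattern L c → ∀ g : Fin L.length → Fin n,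
      Function.Injective g → ∑ j, L.get j * (m (g j) : ℝ) ≤ c * e := by
    intro L c hS g hg
    obtain ⟨_, hpos, hNf⟩ := hS.props
    by_contra hcon
    push Not at hcon
    obtain ⟨x, hx⟩ := hNf (fun j => m (g j)) e hcon
    refine hF0 (hf' p hp e m ⟨_, noForm_ext hg hx⟩ F hF ?_)
    unfold ptJ vIdeal
    rw [Ideal.mem_iInf]
    intro i
    exact mem_of_support (p := p i) (hm i)
  refine ⟨fun L c hS g hg => ⟨key L c hS g hg, fun t ht hmt hL =>
    self_int hS.props.1 hL ht hmt (key L c hS g hg)⟩, ?_⟩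
  intro k u P hk hu hP h9 g hg t ht hmt
  have hu' : (1 : ℝ) ≤ u := by exact_mod_cast hu
  obtain ⟨S, hS⟩ : ∃ S : ℝ, S = (P.map Prod.fst).sum + k * (u : ℝ) ^ 2 := ⟨_, rfl⟩
  rw [← hS] at h9 ⊢
  have hS0 : 0 ≤ S := le_trans (by positivity) h9
  have hd : 3 * (u : ℝ) ≤ √S := by
    apply Real.le_sqrt_of_sq_le
    have : (3 * (u : ℝ)) ^ 2 = 9 * (u : ℝ) ^ 2 := by ring
    linarith
  have hsq : √S ^ 2 = S := Real.sq_sqrt hS0
  have hpat := explicit_pattern hk hu hd (by linarith) le_rfl (.inr rfl) P hP (by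
    rw [hsq, hS]; ring)
  refine self_int (hpat.props.1) ?_ ht hmt (key _ _ hpat g hg)
  rw [hsq, List.map_append, List.sum_append, sq_flatten P hP, List.map_replicate,
    List.sum_replicate, nsmul_eq_mul, hS]
  ring

end Pool.Agent.Results.MP_b180eb_ag.MultiplicityPatterns
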