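import Mathlib
import Pool.Agent.TH142.NU.Main

set_option autoImplicit false

/-!
# Strong Nagata for classes with small variance, any number `≥ 10` of very general points

Let `P 1, …, P s` be very general points of the complex projective plane, `C` a plane curve (any
nonzero form) of degree `d` with multiplicity at least `μ i` at `P i`, so that `(d; μ)` is an
effective class of the blow-up, with self-intersection `(d; μ) ^ 2 = d ^ 2 - ∑ μ i ^ 2`. Let `T` be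
any set of `n ≥ 10` of the points, `S = ∑_{i ∈ T} μ i`, `V = ∑_{i ∈ T} (μ i - S / n) ^ 2`. Then

* (a) if `S > 0`: `(d; μ) ^ 2 > - V - ∑_{i ∉ T} μ i ^ 2`;
* (b) if `n ≥ 22` and `S ≥ n (n / 2 - 11 √n / 6 + 1)`:
  `(d; μ) ^ 2 > (1 - 11 / (3 √n) - 17 / (4 n)) S - V - ∑_{i ∉ T} μ i ^ 2`;
* (c) if `n ≥ 23`, `m ≥ 1` and `μ i ∈ {m, m + 1}` for `i ∈ T`: `∑_{i ∈ T} μ i ^ 2 < d ^ 2`.
-/

namespace Pool.Agent.Results.MP_b180eb_ag.SmallVariance

open MvPolynomial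

/-- The homogeneous ideal of the point `(p 0 : p 1 : 1)`. -/
noncomputable def ptIdeal (p : Fin 2 → ℂ) : Ideal (MvPolynomial (Fin 3) ℂ) :=
  Ideal.span ({X 0 - C (p 0) * X 2, X 1 - C (p 1) * X 2} : Set (MvPolynomial (Fin 3) ℂ))

/-- The self-intersection of the class `d H - ∑ μ i E i`. -/
noncomputable def selfInt {s : ℕ} (d : ℕ) (μ : Fin s → ℕ) : ℝ :=
  (d : ℝ) ^ 2 - ∑ i, (μ i : ℝ) ^ 2

/-- The sum of the multiplicities at the points of `T`. -/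
noncomputable def sumOn {s : ℕ} (T : Finset (Fin s)) (μ : Fin s → ℕ) : ℝ :=
  ∑ i ∈ T, (μ i : ℝ)

/-- `n` times the variance of the multiplicities at the `n` points of `T`. -/
noncomputable def spread {s : ℕ} (T : Finset (Fin s)) (μ : Fin s → ℕ) : ℝ :=
  ∑ i ∈ T, ((μ i : ℝ) - sumOn T μ / T.card) ^ 2

theorem result (s : ℕ) :
    ∃ G : ℕ → MvPolynomial (Fin s × Fin 2) ℂ, (∀ j, G j ≠ 0) ∧
      ∀ P : Fin s → Fin 2 → ℂ,
        (∀ j, MvPolynomial.eval (fun ij : Fin s × Fin 2 => P ij.1 ij.2) (G j) ≠ 0) →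
        ∀ (d : ℕ) (μ : Fin s → ℕ) (F : MvPolynomial (Fin 3) ℂ), F ≠ 0 →
          F.IsHomogeneous d → (∀ i, F ∈ ptIdeal (P i) ^ (μ i)) →
          ∀ (n : ℕ) (T : Finset (Fin s)), T.card = n → 10 ≤ n →
            (0 < sumOn T μ → - spread T μ - ∑ i ∈ Tᶜ, (μ i : ℝ) ^ 2 < selfInt d μ) ∧
            (22 ≤ n → (n : ℝ) * ((n : ℝ) / 2 - 11 / 6 * √(n : ℝ) + 1) ≤ sumOn T μ →
              (1 - 11 / (3 * √(n : ℝ)) - 17 / (4 * (n : ℝ))) * sumOn T μ - spread T μ -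
                ∑ i ∈ Tᶜ, (μ i : ℝ) ^ 2 < selfInt d μ) ∧
            (23 ≤ n → (∃ m : ℕ, 1 ≤ m ∧ ∀ i ∈ T, μ i = m ∨ μ i = m + 1) →
              ∑ i ∈ T, (μ i : ℝ) ^ 2 < (d : ℝ) ^ 2) := by
  obtain ⟨G, hG, hG'⟩ := Pool.Agent.TH603.Cut.exists_family (Fin s × Fin 2)
  refine ⟨G, hG, fun P hP d μ F hF hFd hmu n T hT hn => ?_⟩
  subst hT
  exact Pool.Agent.TH142.NU.main (hG' _ hP) hF hFd hmu T hn

end Pool.Agent.Results.MP_b180eb_ag.SmallVariance
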